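import Pool.Agent.K3h5.IB.Stm

/-!
# The excision lemma (brick EXC of helper5, MP_bb3c31_pr)
-/

set_option autoImplicit false

namespace Pool.Agent.K3h85.IB

open Pool.Agent.K3h5.IB

variable {d : ℕ}

theorem inf_of {P : ℕ → Prop} (h : ∀ N, ∃ n ≥ N, P n) : {n | P n}.Infinite := by
  rw [← Nat.frequently_atTop_iff_infinite, Filter.frequently_atTop]
  intro N
  obtain ⟨n, hn, h1⟩ := h N
  exact ⟨n, hn, h1⟩

/-- counting along the enumeration of the times with the property `P` -/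
theorem card_nth {P Q : ℕ → Prop} [DecidablePred Q] (hP : {n | P n}.Infinite) (hQ : ∀ n, Q n → P n)
    (j : ℕ) : ((Finset.range (Nat.nth P j)).filter Q).card =
      ((Finset.range j).filter fun i => Q (Nat.nth P i)).card := by
  classical
  have h1 : (Finset.range (Nat.nth P j)).filter Q =
      ((Finset.range j).filter fun i => Q (Nat.nth P i)).image (Nat.nth P) := by
    ext n
    simp only [Finset.mem_filter, Finset.mem_range, Finset.mem_image]
    constructor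
    · rintro ⟨hn, hq⟩
      have h2 : Nat.nth P (Nat.count P n) = n := Nat.nth_count (hQ n hq)
      refine ⟨Nat.count P n, ⟨?_, by rwa [h2]⟩, h2⟩
      rw [← (Nat.nth_strictMono hP).lt_iff_lt, h2]
      exact hn
    · rintro ⟨i, ⟨hi, hq⟩, rfl⟩
      exact ⟨Nat.nth_strictMono hP hi, hq⟩
  rw [h1, Finset.card_image_of_injective _ (Nat.nth_injective hP)]

/-- the time before the visit number `i + 1` is not in `R` or is the time of the visit number `i` -/
theorem nth_succ_cases {P : ℕ → Prop} (hP : {n | P n}.Infinite) (i : ℕ) :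
    (P (Nat.nth P i + 1) ∧ Nat.nth P (i + 1) = Nat.nth P i + 1) ∨
      (¬ P (Nat.nth P i + 1) ∧ ∃ n, Nat.nth P (i + 1) = n + 1 ∧ ¬ P n) := by
  have h1 : Nat.nth P i < Nat.nth P (i + 1) := Nat.nth_strictMono hP (Nat.lt_succ_self i)
  by_cases h : P (Nat.nth P i + 1)
  · left
    refine ⟨h, ?_⟩
    by_contra hne
    have h2 : Nat.nth P i + 1 < Nat.nth P (i + 1) := by omega
    have h3 := Nat.le_nth_of_lt_nth_succ h2 h
    omega
  · right
    refine ⟨h, Nat.nth P (i + 1) - 1, by omega, fun h2 => ?_⟩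
    have h3 : P (Nat.nth P (i + 1)) := Nat.nth_mem_of_infinite hP _
    rcases Nat.lt_or_ge (Nat.nth P i + 1) (Nat.nth P (i + 1)) with h4 | h4
    · have h5 := Nat.le_nth_of_lt_nth_succ (k := i) (a := Nat.nth P (i + 1) - 1) (by omega) h2
      omega
    · have h5 : Nat.nth P (i + 1) = Nat.nth P i + 1 := by omega
      rw [h5] at h3
      exact h h3

theorem nth_zero_cases {P : ℕ → Prop} (hP : {n | P n}.Infinite) (h0 : ¬ P 0) :
    ∃ n, Nat.nth P 0 = n + 1 ∧ ¬ P n := by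
  have h3 : P (Nat.nth P 0) := Nat.nth_mem_of_infinite hP _
  have h4 : Nat.nth P 0 ≠ 0 := fun h => h0 (h ▸ h3)
  refine ⟨Nat.nth P 0 - 1, by omega, fun h => ?_⟩
  rw [Nat.nth_zero] at h h4
  have h5 : sInf (Set.ofPred P) ≤ sInf (Set.ofPred P) - 1 := Nat.sInf_le h
  omega

section

variable {R : Set (V d)} {o g : V d} {s s' : V d → ℕ → V d} {y y' : ℕ → V d}

/-- the times at which the path is in `R` -/
noncomputable def tm (R : Set (V d)) (y : ℕ → V d) (j : ℕ) : ℕ := Nat.nth (fun n => y n ∈ R) j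

theorem tm_mem (hi : ∀ N, ∃ n ≥ N, y n ∈ R) (j : ℕ) : y (tm R y j) ∈ R :=
  Nat.nth_mem_of_infinite (p := fun n => y n ∈ R) (inf_of hi) j

theorem exists_tm {n : ℕ} (hn : y n ∈ R) : ∃ j, tm R y j = n := by
  classical
  exact ⟨Nat.count (fun n => y n ∈ R) n, Nat.nth_count (p := fun n => y n ∈ R) hn⟩

theorem tm_lt (hi : ∀ N, ∃ n ≥ N, y n ∈ R) : StrictMono (tm R y) :=
  Nat.nth_strictMono (p := fun n => y n ∈ R) (inf_of hi)

/-- the first visit comes from `o` -/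
theorem first (h0 : y 0 ∉ R) (he : ∀ n, y n ∉ R → y (n + 1) ∈ R → y n = o ∧ y (n + 1) = g)
    (hi : ∀ N, ∃ n ≥ N, y n ∈ R) :
    ∃ n, tm R y 0 = n + 1 ∧ y n = o ∧ y (n + 1) = g := by
  obtain ⟨n, h1, h2⟩ := nth_zero_cases (P := fun n => y n ∈ R) (inf_of hi) h0
  have h3 := tm_mem hi 0
  have h4 : tm R y 0 = n + 1 := h1
  rw [h4] at h3
  exact ⟨n, h4, he n h2 h3⟩

theorem succ_cases (he : ∀ n, y n ∉ R → y (n + 1) ∈ R → y n = o ∧ y (n + 1) = g)
    (hi : ∀ N, ∃ n ≥ N, y n ∈ R) (i : ℕ) :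
    (y (tm R y i + 1) ∈ R → tm R y (i + 1) = tm R y i + 1) ∧
      (y (tm R y i + 1) ∉ R → y (tm R y (i + 1)) = g) := by
  rcases nth_succ_cases (P := fun n => y n ∈ R) (inf_of hi) i with h | ⟨h, n, h1, h2⟩
  · exact ⟨fun _ => h.2, fun h3 => absurd h.1 h3⟩
  · refine ⟨fun h3 => absurd h3 h, fun _ => ?_⟩
    have h3 := tm_mem hi (i + 1)
    have h4 : tm R y (i + 1) = n + 1 := h1
    rw [h4] at h3 ⊢
    exact (he n h2 h3).2

theorem visits_tm (hi : ∀ N, ∃ n ≥ N, y n ∈ R) (Q : V d → Prop) [DecidablePred Q]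
    (hQ : ∀ v, Q v → v ∈ R) (j : ℕ) :
    ((Finset.range (tm R y j)).filter fun n => Q (y n)).card =
      ((Finset.range j).filter fun i => Q (y (tm R y i))).card :=
  card_nth (P := fun n => y n ∈ R) (Q := fun n => Q (y n)) (inf_of hi) (fun _ h => hQ _ h) j

theorem claim (h0 : y 0 ∉ R) (h0' : y' 0 ∉ R) (hy : Driven s y) (hy' : Driven s' y')
    (he : ∀ n, y n ∉ R → y (n + 1) ∈ R → y n = o ∧ y (n + 1) = g)
    (he' : ∀ n, y' n ∉ R → y' (n + 1) ∈ R → y' n = o ∧ y' (n + 1) = g)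
    (hi : ∀ N, ∃ n ≥ N, y n ∈ R) (hi' : ∀ N, ∃ n ≥ N, y' n ∈ R)
    (hs : ∀ n, y n ∈ R → ∀ m, s (y n) m = s' (y n) m) (j : ℕ) :
    y (tm R y j) = y' (tm R y' j) ∧ y (tm R y j + 1) = y' (tm R y' j + 1) := by
  induction j using Nat.strong_induction_on with
  | _ j ih =>
    have h1 : y (tm R y j) = y' (tm R y' j) := by
      rcases j with _ | i
      · obtain ⟨n, h2, -, h3⟩ := first h0 he hi
        obtain ⟨n', h2', -, h3'⟩ := first h0' he' hi'
        rw [h2, h3, h2', h3']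
      · have h2 := (ih i (Nat.lt_succ_self i)).2
        have h3 := succ_cases he hi i
        have h3' := succ_cases he' hi' i
        by_cases h4 : y (tm R y i + 1) ∈ R
        · rw [h3.1 h4, h3'.1 (h2 ▸ h4), h2]
        · rw [h3.2 h4, h3'.2 (h2 ▸ h4)]
    refine ⟨h1, ?_⟩
    have h2 : cnt y (tm R y j) = cnt y' (tm R y' j) := by
      unfold cnt
      rw [visits_tm hi (fun v => v = y (tm R y j)) (fun v hv => hv ▸ tm_mem hi j) j,
        visits_tm hi' (fun v => v = y' (tm R y' j)) (fun v hv => hv ▸ tm_mem hi' j) j]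
      congr 1
      refine Finset.filter_congr fun i hi1 => ?_
      rw [h1, (ih i (Finset.mem_range.mp hi1)).1]
    rw [hy, hy', h2, hs _ (tm_mem hi j), h1]

theorem traces (h0' : y' 0 ∉ R)
    (he : ∀ n, y n ∉ R → y (n + 1) ∈ R → y n = o ∧ y (n + 1) = g)
    (he' : ∀ n, y' n ∉ R → y' (n + 1) ∈ R → y' n = o ∧ y' (n + 1) = g)
    (hi' : ∀ N, ∃ n ≥ N, y' n ∈ R)
    (hc : ∀ j, y (tm R y j) = y' (tm R y' j) ∧ y (tm R y j + 1) = y' (tm R y' j + 1))
    {v : V d} (hv : v ∈ R) {e : D d} (h : (v, e) ∈ trace y) : (v, e) ∈ trace y' := by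
  obtain ⟨n, ⟨h1, h2⟩ | ⟨h1, h2⟩⟩ := h
  · dsimp only at h1 h2
    obtain ⟨j, rfl⟩ := exists_tm (R := R) (y := y) (n := n) (h1 ▸ hv)
    exact ⟨tm R y' j, Or.inl ⟨(hc j).1 ▸ h1, (hc j).2 ▸ h2⟩⟩
  · dsimp only at h1 h2
    by_cases h3 : y n ∈ R
    · obtain ⟨j, rfl⟩ := exists_tm (R := R) (y := y) h3
      exact ⟨tm R y' j, Or.inr ⟨(hc j).2 ▸ h1, (hc j).1 ▸ h2⟩⟩
    · obtain ⟨h4, h5⟩ := he n h3 (h1 ▸ hv)
      obtain ⟨m, -, h6, h7⟩ := first h0' he' hi'
      refine ⟨m, Or.inr ⟨?_, ?_⟩⟩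
      · rw [h7, ← h5, h1]
      · rw [h6, ← h4, h2]

end

theorem t_EXC : S_EXC := by
  intro d R o g s s' y y' h0 h0' hy hy' he he' hi hi' hs
  have hc := claim h0 h0' hy hy' he he' hi hi' hs
  refine ⟨fun v hv e => ⟨traces h0' he he' hi' hc hv,
    traces h0 he' he hi (fun j => ⟨(hc j).1.symm, (hc j).2.symm⟩) hv⟩, ?_⟩
  intro h hh B hB hex
  have h1 : y (sInf {n | y n = h}) = h := Nat.sInf_mem (s := {n | y n = h}) hex
  obtain ⟨J, hJ⟩ := exists_tm (R := R) (y := y) (n := sInf {n | y n = h}) (by rw [h1]; exact hh)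
  have h2 : y' (tm R y' J) = h := by
    rw [← (hc J).1, hJ, h1]
  have hex' : ∃ n, y' n = h := ⟨_, h2⟩
  have h1' : y' (sInf {n | y' n = h}) = h := Nat.sInf_mem (s := {n | y' n = h}) hex'
  have h3 : sInf {n | y' n = h} = tm R y' J := by
    apply le_antisymm
    · exact Nat.sInf_le h2
    · obtain ⟨K, hK⟩ := exists_tm (R := R) (y := y') (n := sInf {n | y' n = h})
        (by rw [h1']; exact hh)
      have h4 : y (tm R y K) = h := by
        rw [(hc K).1, hK, h1']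
      have h5 : tm R y J ≤ tm R y K := by
        rw [hJ]
        exact Nat.sInf_le h4
      rw [← hK]
      exact (tm_lt hi').monotone ((tm_lt hi).le_iff_le.mp h5)
  refine ⟨hex', ?_⟩
  rw [h3, ← hJ]
  classical
  unfold visits
  have e1 := visits_tm hi (fun v => v ∈ B) (fun v hv => hB hv) J
  have e2 := visits_tm hi' (fun v => v ∈ B) (fun v hv => hB hv) J
  have e3 : ((Finset.range J).filter fun i => y (tm R y i) ∈ B).card =
      ((Finset.range J).filter fun i => y' (tm R y' i) ∈ B).card := by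
    congr 1
    refine Finset.filter_congr fun i _ => ?_
    rw [(hc i).1]
  convert e1.trans (e3.trans e2.symm)

end Pool.Agent.K3h85.IB
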