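import Pool.Agent.K3h5.IB.Stm

/-!
# Walks driven by fair stacks (brick FAIR of helper5, MP_bb3c31_pr)
-/

set_option autoImplicit false

namespace Pool.Agent.K3h85.IB

open Pool.Agent.K3h5.IB

variable {d : ℕ}

theorem vec_opp (e : D d) : vec (opp e) = -vec e := by
  unfold vec opp
  rw [← Pi.single_neg]
  cases e.2 <;> simp

theorem conn_symm {Z : Set (V d × D d)} (hs : ∀ v e, (v, e) ∈ Z → (v + vec e, opp e) ∈ Z)
    {v w : V d} (h : Conn Z v w) : Conn Z w v := by
  have h1 : ∀ a b : V d, (∃ e, (a, e) ∈ Z ∧ b = a + vec e) → ∃ e, (b, e) ∈ Z ∧ a = b + vec e := by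
    rintro a b ⟨e, he, rfl⟩
    exact ⟨opp e, hs a e he, by rw [vec_opp]; abel⟩
  induction h with
  | refl => exact Relation.ReflTransGen.refl
  | tail _ hbc ih => exact Relation.ReflTransGen.head (h1 _ _ hbc) ih

theorem step_mem {Z : Set (V d × D d)} {s : V d → ℕ → V d} (h : FairOn Z s) {y : ℕ → V d}
    (h0 : y 0 = 0) (hy : Driven s y) (n : ℕ) : ∃ e, (y n, e) ∈ Z ∧ y (n + 1) = y n + vec e := by
  have key : ∀ n, ∃ e, (y n, e) ∈ Z := by
    intro n
    induction n with
    | zero =>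
      rw [h0]
      exact h.start
    | succ n ih =>
      obtain ⟨e, he, h1⟩ := h.mem (y n) ih (cnt y n)
      refine ⟨opp e, ?_⟩
      rw [hy n, h1]
      exact h.sym _ _ he
  obtain ⟨e, he, h1⟩ := h.mem (y n) (key n) (cnt y n)
  exact ⟨e, he, by rw [hy n, h1]⟩

theorem io_infinite {y : ℕ → V d} {v : V d} (h : IO y v) : {n | y n = v}.Infinite := by
  rw [← Nat.frequently_atTop_iff_infinite, Filter.frequently_atTop]
  intro N
  obtain ⟨n, hn, h1⟩ := h N
  exact ⟨n, hn, h1⟩

theorem cnt_eq (y : ℕ → V d) (n : ℕ) : cnt y n = Nat.count (fun j => y j = y n) n := by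
  unfold cnt
  rw [Nat.count_eq_card_filter_range]

theorem io_step {Z : Set (V d × D d)} {s : V d → ℕ → V d} (h : FairOn Z s) {y : ℕ → V d}
    (hy : Driven s y) {v : V d} (hv : IO y v) {e : D d} (he : (v, e) ∈ Z) : IO y (v + vec e) := by
  intro N
  obtain ⟨m, hm, h1⟩ := h.fair v e he N
  have hinf := io_infinite hv
  have h2 : y (Nat.nth (fun n => y n = v) m) = v := Nat.nth_mem_of_infinite hinf m
  have h3 : m ≤ Nat.nth (fun n => y n = v) m := (Nat.nth_strictMono hinf).le_apply
  have h4 : cnt y (Nat.nth (fun n => y n = v) m) = m := by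
    rw [cnt_eq, h2]
    exact Nat.count_nth_of_infinite hinf m
  refine ⟨Nat.nth (fun n => y n = v) m + 1, by omega, ?_⟩
  rw [hy, h4, h2, h1]

theorem io_conn {Z : Set (V d × D d)} {s : V d → ℕ → V d} (h : FairOn Z s) {y : ℕ → V d}
    (hy : Driven s y) {v w : V d} (hv : IO y v) (hw : Conn Z v w) : IO y w := by
  induction hw with
  | refl => exact hv
  | tail _ hbc ih =>
    obtain ⟨e, he, rfl⟩ := hbc
    exact io_step h hy ih he

theorem conn_y {Z : Set (V d × D d)} {s : V d → ℕ → V d} (h : FairOn Z s) {y : ℕ → V d}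
    (h0 : y 0 = 0) (hy : Driven s y) (n : ℕ) : Conn Z 0 (y n) := by
  induction n with
  | zero =>
    rw [h0]
    exact Relation.ReflTransGen.refl
  | succ n ih => exact ih.tail (step_mem h h0 hy n)

theorem t_FAIR : S_FAIR := by
  intro d Z s h y h0 hy
  have h2 : ∀ v w, IO y v → Conn Z 0 w → IO y w := by
    intro v w hv hw
    obtain ⟨n, -, hn⟩ := hv 0
    have h3 : Conn Z v 0 := conn_symm h.sym (hn ▸ conn_y h h0 hy n)
    exact io_conn h hy hv (Relation.ReflTransGen.trans h3 hw)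
  refine ⟨step_mem h h0 hy, h2, ?_⟩
  intro hinf F hF N
  by_contra hcon
  push Not at hcon
  have h3 : ∃ v, IO y v := by
    by_contra hv
    push Not at hv
    have h4 : ∀ v, ∃ M, ∀ n ≥ M, y n ≠ v := by
      intro v
      have h5 := hv v
      unfold Pool.Agent.K3h5.IB.IO at h5
      push Not at h5
      exact h5
    choose M hM using h4
    have h5 : y (max N (hF.toFinset.sup M)) ∈ F := hcon _ (le_max_left _ _)
    refine hM (y (max N (hF.toFinset.sup M))) (max N (hF.toFinset.sup M)) ?_ rfl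
    exact (Finset.le_sup (f := M) (hF.mem_toFinset.mpr h5)).trans (le_max_right _ _)
  obtain ⟨v, hv⟩ := h3
  apply hinf
  refine hF.subset fun w hw => ?_
  obtain ⟨n, hn, h4⟩ := h2 v w hv hw N
  exact h4 ▸ hcon n hn

end Pool.Agent.K3h85.IB
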